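import Pool.Agent.Helper83_Rae.F12
import Pool.Agent.Helper867_Rae.Base2

set_option autoImplicit false

/-! (8g): locally finite 2-groups all of whose elementary abelian subgroups are finite. -/

namespace Pool.Agent.Helper83_Rae

open Pool.Agent.Helper867_Rae Pool.Agent.TH62.PL

/-- finite index from a function with finite image separating cosets -/
theorem relIndex_ne_zero_of_fun {T X : Type} [Group T] (K C : Subgroup T) (f : T → X) (S : Set X)
    (hS : S.Finite) (hf : ∀ x ∈ C, f x ∈ S)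
    (h : ∀ x ∈ C, ∀ y ∈ C, f x = f y → x⁻¹ * y ∈ K) : K.relIndex C ≠ 0 := by
  have : Finite S := hS.to_subtype
  have : Finite (C ⧸ K.subgroupOf C) := by
    refine Finite.of_injective (fun q : C ⧸ K.subgroupOf C =>
      (⟨f (q.out : T), hf _ q.out.2⟩ : S)) ?_
    intro q q' hqq
    have h1 : f (q.out : T) = f (q'.out : T) := congrArg Subtype.val hqq
    have h2 := h _ q.out.2 _ q'.out.2 h1
    rw [← QuotientGroup.out_eq' q, ← QuotientGroup.out_eq' q', QuotientGroup.eq]
    rw [Subgroup.mem_subgroupOf]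
    simpa using h2
  rw [Subgroup.relIndex]
  exact Subgroup.index_ne_zero_of_finite

theorem finite_of_relIndex {T X : Type} [Group T] {K C : Subgroup T} (h : K.relIndex C ≠ 0)
    (f : T → X) (hf : ∀ x ∈ C, ∀ y ∈ C, x⁻¹ * y ∈ K → f x = f y) : (f '' (C : Set T)).Finite := by
  have h1 : (K.subgroupOf C).index ≠ 0 := h
  have : Finite (C ⧸ K.subgroupOf C) := Subgroup.index_ne_zero_iff_finite.1 h1
  refine (Set.finite_range (fun q : C ⧸ K.subgroupOf C => f (q.out : T))).subset ?_
  rintro _ ⟨x, hx, rfl⟩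
  refine ⟨QuotientGroup.mk ⟨x, hx⟩, ?_⟩
  refine hf _ (Quotient.out (QuotientGroup.mk (⟨x, hx⟩ : C) : C ⧸ K.subgroupOf C)).2 _ hx ?_
  have h2 : (QuotientGroup.mk (Quotient.out (QuotientGroup.mk (⟨x, hx⟩ : C) : C ⧸ K.subgroupOf C))
      : C ⧸ K.subgroupOf C) = QuotientGroup.mk ⟨x, hx⟩ := QuotientGroup.out_eq' _
  rw [QuotientGroup.eq, Subgroup.mem_subgroupOf] at h2
  simpa using h2

/-- the commutative group structure on a commutative subgroup -/
@[reducible] def cg {T : Type} [Group T] (A : Subgroup T) (hab : ∀ a ∈ A, ∀ b ∈ A, a * b = b * a) :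
    CommGroup A :=
  { (inferInstance : Group A) with
    mul_comm := fun a b => Subtype.ext (hab a a.2 b b.2) }

/-- multiplicative form of (F1) for subgroups -/
theorem F1_sub {T : Type} [Group T] (A : Subgroup T) (hab : ∀ a ∈ A, ∀ b ∈ A, a * b = b * a)
    (h2 : ∀ a ∈ A, ∃ k : ℕ, a ^ 2 ^ k = 1) (hf : {a : T | a ∈ A ∧ a * a = 1}.Finite) :
    ∃ N : ℕ, {a : T | a ∈ A ∧ a ^ 2 ^ N = 1}.Finite ∧ ∀ y : T,
      (∀ a ∈ A, y * a * y⁻¹ ∈ A) → (∀ a ∈ A, y⁻¹ * a * y ∈ A) → (∃ m, 0 < m ∧ y ^ m = 1) →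
      (∀ a ∈ A, a ^ 2 ^ N = 1 → y * a * y⁻¹ = a) → ∀ a ∈ A, y * a * y⁻¹ = a := by
  let _ : CommGroup A := cg A hab
  have hfin : Finite {a : Additive A // 2 • a = 0} := by
    have : Finite {a : T | a ∈ A ∧ a * a = 1} := hf.to_subtype
    refine Finite.of_injective (fun a : {a : Additive A // 2 • a = 0} =>
      (⟨(Additive.toMul a.1 : A), ?_, ?_⟩ : {a : T | a ∈ A ∧ a * a = 1})) ?_
    · exact (Additive.toMul a.1 : A).2
    · have h1 : (Additive.toMul (2 • a.1) : A) = 1 := by rw [a.2]; rfl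
      have h3 : (Additive.toMul (2 • a.1) : A) = (Additive.toMul a.1) * (Additive.toMul a.1) := by
        rw [two_nsmul]; rfl
      rw [h3] at h1
      exact congrArg Subtype.val h1
    · intro a b hh
      apply Subtype.ext
      have h1 : ((Additive.toMul a.1 : A) : T) = ((Additive.toMul b.1 : A) : T) :=
        congrArg (fun z : ↥{a : T | a ∈ A ∧ a * a = 1} => (z : T)) hh
      exact Subtype.ext h1
  obtain ⟨N, hN, hN'⟩ := F1 (Additive A) (by
    intro a
    obtain ⟨k, hk⟩ := h2 (Additive.toMul a : A) (Additive.toMul a : A).2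
    exact ⟨k, Subtype.ext hk⟩) hfin
  refine ⟨N, ?_, ?_⟩
  · rw [← Set.finite_coe_iff]
    refine Finite.of_injective (fun a : {a : T | a ∈ A ∧ a ^ 2 ^ N = 1} =>
      (⟨Additive.ofMul (⟨a.1, a.2.1⟩ : A), Subtype.ext a.2.2⟩ :
        {a : Additive A // 2 ^ N • a = 0})) ?_
    intro a b hh
    have h1 : (a : T) = (b : T) := congrArg (fun z : {a : Additive A // 2 ^ N • a = 0} =>
      ((Additive.toMul z.1 : A) : T)) hh
    exact Subtype.ext h1
  · intro y hy hy' hm hfix a ha
    let g : A ≃* A :=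
      { toFun := fun a => ⟨y * a * y⁻¹, hy a a.2⟩
        invFun := fun a => ⟨y⁻¹ * a * y, hy' a a.2⟩
        left_inv := fun a => Subtype.ext (by simp [mul_assoc])
        right_inv := fun a => Subtype.ext (by simp [mul_assoc])
        map_mul' := fun a b => Subtype.ext (by simp [mul_assoc]) }
    have hiter : ∀ (j : ℕ) (a : Additive A),
        ((Additive.toMul ((⇑(MulEquiv.toAdditive g))^[j] a) : A) : T) =
          y ^ j * ((Additive.toMul a : A) : T) * (y ^ j)⁻¹ := by
      intro j
      induction j with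
      | zero => intro a; simp
      | succ j ih =>
        intro a
        rw [Function.iterate_succ_apply']
        have e : ((Additive.toMul ((MulEquiv.toAdditive g)
            ((⇑(MulEquiv.toAdditive g))^[j] a)) : A) : T) =
            y * ((Additive.toMul ((⇑(MulEquiv.toAdditive g))^[j] a) : A) : T) * y⁻¹ := rfl
        rw [e, ih, pow_succ']
        group
    have h3 := hN' (MulEquiv.toAdditive g) (by
      obtain ⟨m, hm0, hm1⟩ := hm
      refine ⟨m, hm0, fun a => ?_⟩
      have h5 := hiter m a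
      rw [hm1] at h5
      have h6 : ((Additive.toMul ((⇑(MulEquiv.toAdditive g))^[m] a) : A) : T) =
          ((Additive.toMul a : A) : T) := by rw [h5]; simp
      exact Subtype.ext h6) (by
      intro a ha
      have h5 : (((Additive.toMul a : A)) : T) ^ 2 ^ N = 1 := congrArg Subtype.val ha
      exact Subtype.ext (hfix _ (Additive.toMul a : A).2 h5)) (Additive.ofMul (⟨a, ha⟩ : A))
    exact congrArg (fun b : A => (b : T)) h3

/-- multiplicative form of (F2) for subgroups -/
theorem F2_sub {T : Type} [Group T] (A : Subgroup T) (hab : ∀ a ∈ A, ∀ b ∈ A, a * b = b * a)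
    (h2 : ∀ a ∈ A, ∃ k : ℕ, a ^ 2 ^ k = 1) (hf : {a : T | a ∈ A ∧ a * a = 1}.Finite) :
    (∀ H : ℕ → Subgroup T, Antitone H → (∀ n, H n ≤ A) → ∃ n, ∀ m ≥ n, H m = H n) ∧
    (∀ K : Subgroup T, (∀ a ∈ A, a * a ∈ K) → K.relIndex A ≠ 0) := by
  let _ : CommGroup A := cg A hab
  have hfin : Finite {a : Additive A // 2 • a = 0} := by
    have : Finite {a : T | a ∈ A ∧ a * a = 1} := hf.to_subtype
    refine Finite.of_injective (fun a : {a : Additive A // 2 • a = 0} =>
      (⟨(Additive.toMul a.1 : A), ?_, ?_⟩ : {a : T | a ∈ A ∧ a * a = 1})) ?_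
    · exact (Additive.toMul a.1 : A).2
    · have h1 : (Additive.toMul (2 • a.1) : A) = 1 := by rw [a.2]; rfl
      have h3 : (Additive.toMul (2 • a.1) : A) = (Additive.toMul a.1) * (Additive.toMul a.1) := by
        rw [two_nsmul]; rfl
      rw [h3] at h1
      exact congrArg Subtype.val h1
    · intro a b hh
      apply Subtype.ext
      have h1 : ((Additive.toMul a.1 : A) : T) = ((Additive.toMul b.1 : A) : T) :=
        congrArg (fun z : ↥{a : T | a ∈ A ∧ a * a = 1} => (z : T)) hh
      exact Subtype.ext h1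
  obtain ⟨hch, n, hn, hn'⟩ := F2 (Additive A) (by
    intro a
    obtain ⟨k, hk⟩ := h2 (Additive.toMul a : A) (Additive.toMul a : A).2
    exact ⟨k, Subtype.ext hk⟩) hfin
  refine ⟨?_, ?_⟩
  · intro H hH hle
    obtain ⟨n, hn⟩ := hch (fun n =>
      { carrier := {a : Additive A | ((Additive.toMul a : A) : T) ∈ H n}
        add_mem' := fun {a b} ha hb => (H n).mul_mem ha hb
        zero_mem' := (H n).one_mem
        neg_mem' := fun {a} ha => (H n).inv_mem ha }) (by
      intro i j hij a ha
      exact hH hij ha)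
    refine ⟨n, fun m hm => ?_⟩
    have h3 := hn m hm
    ext x
    constructor
    · intro hx
      exact hH hm hx
    · intro hx
      have h4 : (Additive.ofMul (⟨x, hle n hx⟩ : A)) ∈ ({
        carrier := {a : Additive A | ((Additive.toMul a : A) : T) ∈ H n}
        add_mem' := fun {a b} ha hb => (H n).mul_mem ha hb
        zero_mem' := (H n).one_mem
        neg_mem' := fun {a} ha => (H n).inv_mem ha } : AddSubgroup (Additive A)) := hx
      rw [← h3] at h4
      exact h4
  · intro K hK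
    classical
    let R := AddMonoidHom.range (nsmulAddMonoidHom (α := Additive A) (2 ^ n))
    have : Finite (Additive A ⧸ R) := hn'
    let f : T → Additive A ⧸ R := fun t =>
      if h : t ∈ A then QuotientAddGroup.mk (Additive.ofMul (⟨t, h⟩ : A)) else 0
    refine relIndex_ne_zero_of_fun K A f Set.univ Set.finite_univ (fun _ _ => Set.mem_univ _) ?_
    intro x hx y hy hxy
    have e1 : f x = QuotientAddGroup.mk (Additive.ofMul (⟨x, hx⟩ : A)) := dif_pos hx
    have e2 : f y = QuotientAddGroup.mk (Additive.ofMul (⟨y, hy⟩ : A)) := dif_pos hy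
    rw [e1, e2, QuotientAddGroup.eq] at hxy
    obtain ⟨b, hb⟩ := hxy
    obtain ⟨c, hc⟩ := hn b
    have h5 : (2 ^ n • b : Additive A) = 2 • (2 ^ n • c) := by
      rw [hc, pow_succ', mul_smul]
    have hb' : 2 ^ n • b = -Additive.ofMul (⟨x, hx⟩ : A) + Additive.ofMul (⟨y, hy⟩ : A) := hb
    have h6 : ((Additive.toMul (2 ^ n • b) : A) : T) = x⁻¹ * y := by rw [hb']; rfl
    rw [h5] at h6
    have h7 : ((Additive.toMul (2 • (2 ^ n • c)) : A) : T) =
        ((Additive.toMul (2 ^ n • c) : A) : T) * ((Additive.toMul (2 ^ n • c) : A) : T) := by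
      rw [two_nsmul]; rfl
    rw [← h6, h7]
    exact hK _ (Additive.toMul (2 ^ n • c) : A).2

end Pool.Agent.Helper83_Rae
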