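import Pool.Agent.Helper83_Rae.Ch

set_option autoImplicit false

/-! (8g), continued. -/

namespace Pool.Agent.Helper83_Rae

open Pool.Agent.Helper867_Rae Pool.Agent.TH62.PL

/-- elementwise commuting -/
def Ab {T : Type} [Group T] (A : Subgroup T) : Prop := ∀ a ∈ A, ∀ b ∈ A, a * b = b * a

/-- adjoin a central involution -/
def adj {T : Type} [Group T] (E : Subgroup T) (z : T) (hz : z * z = 1)
    (hc : ∀ x ∈ E, x * z = z * x) : Subgroup T where
  carrier := {x | x ∈ E ∨ z * x ∈ E}
  one_mem' := Or.inl E.one_mem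
  mul_mem' := by
    intro x y hx hy
    have hcc : ∀ x, z * x ∈ E → x * z = z * x := by
      intro x hx
      have h1 := hc _ hx
      have h2 : z * (x * z) = z * (z * x) := by rw [← mul_assoc]; exact h1
      exact mul_left_cancel h2
    rcases hx with hx | hx <;> rcases hy with hy | hy
    · exact Or.inl (E.mul_mem hx hy)
    · refine Or.inr ?_
      have : z * (x * y) = x * (z * y) := by rw [← mul_assoc, ← hc x hx, mul_assoc]
      rw [this]; exact E.mul_mem hx hy
    · refine Or.inr ?_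
      rw [← mul_assoc]; exact E.mul_mem hx hy
    · refine Or.inl ?_
      have : x * y = (z * x) * (z * y) := by
        have h1 : (z * x) * (z * y) = (z * z) * (x * y) := by
          rw [mul_assoc z x, ← mul_assoc x z, hcc x hx]
          simp [mul_assoc]
        rw [h1, hz, one_mul]
      rw [this]; exact E.mul_mem hx hy
  inv_mem' := by
    intro x hx
    rcases hx with hx | hx
    · exact Or.inl (E.inv_mem hx)
    · refine Or.inr ?_
      have hcc : x * z = z * x := by
        have h1 := hc _ hx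
        have h2 : z * (x * z) = z * (z * x) := by rw [← mul_assoc]; exact h1
        exact mul_left_cancel h2
      have hzi : z⁻¹ = z := inv_eq_of_mul_eq_one_left hz
      have : z * x⁻¹ = (z * x)⁻¹ := by
        rw [← hcc, mul_inv_rev, hzi]
      rw [this]; exact E.inv_mem hx

/-- Zorn for subgroups: properties closed under unions of chains -/
theorem zorn_sub {T : Type} [Group T] (p : Subgroup T → Prop) (E0 : Subgroup T) (h0 : p E0)
    (hU : ∀ c : Set (Subgroup T), c.Nonempty → IsChain (· ≤ ·) c → (∀ E ∈ c, p E) →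
      p (sSup c)) :
    ∃ E, E0 ≤ E ∧ p E ∧ ∀ E', E ≤ E' → p E' → E' ≤ E := by
  obtain ⟨E, hE0, hE⟩ := zorn_le_nonempty₀ {E | p E} (fun c hc hch y hy =>
    ⟨sSup c, hU c ⟨y, hy⟩ hch hc, fun z hz => le_sSup hz⟩) E0 h0
  exact ⟨E, hE0, hE.1, fun E' hEE' hE' => hE.2 hE' hEE'⟩

theorem chain_mem {T : Type} [Group T] {c : Set (Subgroup T)} (hne : c.Nonempty)
    (hch : IsChain (· ≤ ·) c) {x : T} (hx : x ∈ sSup c) : ∃ E ∈ c, x ∈ E :=
  (Subgroup.mem_sSup_of_directedOn hne hch.directedOn).1 hx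

theorem chain_mem2 {T : Type} [Group T] {c : Set (Subgroup T)} (hne : c.Nonempty)
    (hch : IsChain (· ≤ ·) c) {x y : T} (hx : x ∈ sSup c) (hy : y ∈ sSup c) :
    ∃ E ∈ c, x ∈ E ∧ y ∈ E := by
  obtain ⟨E, hE, hxE⟩ := chain_mem hne hch hx
  obtain ⟨E', hE', hyE⟩ := chain_mem hne hch hy
  rcases hch.total hE hE' with h | h
  · exact ⟨E', hE', h hxE, hyE⟩
  · exact ⟨E, hE, hxE, h hyE⟩

theorem invol_pow {T : Type} [Group T] {x : T} (hx : x ≠ 1) {k : ℕ} (hk : x ^ 2 ^ k = 1) :
    ∃ j : ℕ, x ^ 2 ^ j ≠ 1 ∧ x ^ 2 ^ j * x ^ 2 ^ j = 1 := by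
  induction k with
  | zero => exact absurd (by simpa using hk) hx
  | succ k ih =>
    by_cases h : x ^ 2 ^ k = 1
    · exact ih h
    · refine ⟨k, h, ?_⟩
      rw [← pow_add, ← two_mul, ← pow_succ']
      exact hk

/-- (8g)(i) -/
theorem center_meet {T : Type} [Group T] (hLF : LF T) (h2 : ∀ t : T, ∃ k : ℕ, t ^ 2 ^ k = 1)
    (hE : ∀ E : Subgroup T, (∀ x ∈ E, x * x = 1) → Finite E) (M : Subgroup T) (hM : M.Normal)
    (hne : M ≠ ⊥) : ∃ z ∈ M, z ≠ 1 ∧ ∀ t : T, z * t = t * z := by
  obtain ⟨E, -, hE1, hEmax⟩ := zorn_sub (fun E : Subgroup T => ∀ x ∈ E, x * x = 1) ⊥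
    (by intro x hx; rw [Subgroup.mem_bot.1 hx]; simp)
    (by
      intro c hne hch hc x hx
      obtain ⟨E, hE, hxE⟩ := chain_mem hne hch hx
      exact hc E hE x hxE)
  have hEf : Finite E := hE E hE1
  obtain ⟨m, hmM, hm1⟩ := M.bot_or_exists_ne_one.resolve_left hne
  by_contra hcon
  push Not at hcon
  choose! t ht using hcon
  let S : Set T := (E : Set T) ∪ {m} ∪ t '' (E : Set T)
  have hSf : S.Finite := by
    have hEf' : (E : Set T).Finite := Set.toFinite _
    exact (hEf'.union (Set.finite_singleton m)).union (hEf'.image t)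
  let Y := Subgroup.closure S
  have hYfg : Y.FG := (Subgroup.fg_iff _).2 ⟨S, rfl, hSf⟩
  have hYf : Finite Y := hLF Y hYfg
  have hYp : IsPGroup 2 Y := by
    intro y
    obtain ⟨k, hk⟩ := h2 (y : T)
    exact ⟨k, Subtype.ext hk⟩
  have hmY : m ∈ Y := Subgroup.subset_closure (Or.inl (Or.inr rfl))
  have hne' : M.subgroupOf Y ≠ ⊥ := by
    intro h
    have : (⟨m, hmY⟩ : Y) ∈ M.subgroupOf Y := Subgroup.mem_subgroupOf.2 hmM
    rw [h, Subgroup.mem_bot] at this
    exact hm1 (congrArg Subtype.val this)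
  have : Fact (Nat.Prime 2) := ⟨Nat.prime_two⟩
  have := hM
  obtain ⟨z0, hz0M, hz01, hz0c⟩ := meet_center hYp (M.subgroupOf Y) hne'
  obtain ⟨k, hk⟩ := hYp z0
  obtain ⟨j, hj1, hj2⟩ := invol_pow hz01 hk
  set z := z0 ^ 2 ^ j with hz
  have hzc : ∀ g : Y, g * z = z * g := by
    intro g
    have hcm : Commute g z0 := hz0c g
    exact hcm.pow_right _
  have hzM : (z : T) ∈ M := by
    have h3 : z ∈ M.subgroupOf Y := Subgroup.pow_mem _ hz0M _
    exact Subgroup.mem_subgroupOf.1 h3
  have hzz : (z : T) * (z : T) = 1 := congrArg Subtype.val hj2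
  have hzne : (z : T) ≠ 1 := fun h => hj1 (Subtype.ext h)
  have hEY : E ≤ Y := fun x hx => Subgroup.subset_closure (Or.inl (Or.inl hx))
  have hcE : ∀ x ∈ E, x * (z : T) = (z : T) * x := fun x hx =>
    congrArg Subtype.val (hzc ⟨x, hEY hx⟩)
  have hzE : (z : T) ∈ E := by
    have hle : E ≤ adj E z hzz hcE := fun x hx => Or.inl hx
    refine hEmax (adj E z hzz hcE) hle ?_ (Or.inr (by rw [hzz]; exact E.one_mem))
    intro x hx
    rcases hx with hx | hx
    · exact hE1 x hx
    · have h1 := hE1 _ hx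
      have hcc : x * (z : T) = z * x := by
        have h1 := hcE _ hx
        have h2 : (z : T) * (x * z) = z * (z * x) := by rw [← mul_assoc]; exact h1
        exact mul_left_cancel h2
      have h3 : (z : T) * x * (z * x) = (z * z) * (x * x) := by
        rw [mul_assoc (z : T) x, ← mul_assoc x (z : T), hcc]
        simp [mul_assoc]
      rw [h3, hzz, one_mul] at h1
      exact h1
  have h5 := ht (z : T) hzM hzne
  have h6 : t (z : T) ∈ Y := Subgroup.subset_closure (Or.inr ⟨z, hzE, rfl⟩)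
  exact h5 (congrArg Subtype.val (hzc ⟨t z, h6⟩)).symm

/-- the involutions of an abelian subgroup are finitely many -/
theorem inv_fin {T : Type} [Group T]
    (hE : ∀ E : Subgroup T, (∀ x ∈ E, x * x = 1) → Finite E) (A : Subgroup T) (hab : Ab A) :
    {a : T | a ∈ A ∧ a * a = 1}.Finite := by
  let E : Subgroup T :=
    { carrier := {a : T | a ∈ A ∧ a * a = 1}
      one_mem' := ⟨A.one_mem, by simp⟩
      mul_mem' := by
        rintro x y ⟨hx, hx2⟩ ⟨hy, hy2⟩
        refine ⟨A.mul_mem hx hy, ?_⟩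
        have : x * y * (x * y) = (x * x) * (y * y) := by
          rw [mul_assoc x y, ← mul_assoc y x, hab y hy x hx]
          simp [mul_assoc]
        rw [this, hx2, hy2, one_mul]
      inv_mem' := by
        rintro x ⟨hx, hx2⟩
        refine ⟨A.inv_mem hx, ?_⟩
        rw [← mul_inv_rev, hx2, inv_one] }
  have : Finite E := hE E fun x hx => hx.2
  exact Set.toFinite (E : Set T)

/-- an abelian normal subgroup: its centraliser has finite index in any subgroup -/
theorem cent_index {T : Type} [Group T] (h2 : ∀ t : T, ∃ k : ℕ, t ^ 2 ^ k = 1)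
    (A : Subgroup T) (hN : A.Normal) (hab : Ab A) (hf : {a : T | a ∈ A ∧ a * a = 1}.Finite)
    (M : Subgroup T) : (Subgroup.centralizer (A : Set T)).relIndex M ≠ 0 := by
  obtain ⟨N, hNf, hN'⟩ := F1_sub A hab (fun a _ => h2 a) hf
  have : Finite {a : T | a ∈ A ∧ a ^ 2 ^ N = 1} := hNf.to_subtype
  let S := {a : T | a ∈ A ∧ a ^ 2 ^ N = 1}
  let f : T → (S → S) := fun x a => ⟨x * a * x⁻¹, hN.conj_mem _ a.2.1 x, by
    rw [conj_pow, a.2.2, mul_one, mul_inv_cancel]⟩
  refine relIndex_ne_zero_of_fun _ M f Set.univ Set.finite_univ (fun _ _ => Set.mem_univ _) ?_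
  intro x _ y _ hxy
  rw [Subgroup.mem_centralizer_iff]
  have h3 := hN' (x⁻¹ * y) (fun a ha => hN.conj_mem a ha _)
    (fun a ha => by have := hN.conj_mem a ha (x⁻¹ * y)⁻¹; rwa [inv_inv] at this)
    (by obtain ⟨k, hk⟩ := h2 (x⁻¹ * y); exact ⟨2 ^ k, by positivity, hk⟩) (by
      intro a ha ha'
      have h4 : x * a * x⁻¹ = y * a * y⁻¹ :=
        congrArg Subtype.val (congrFun hxy (⟨a, ha, ha'⟩ : S))
      have h5 : x⁻¹ * y * a * (x⁻¹ * y)⁻¹ = x⁻¹ * (y * a * y⁻¹) * x := by group
      rw [h5, ← h4]; group)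
  intro a ha
  have h6 := h3 a ha
  calc a * (x⁻¹ * y) = (x⁻¹ * y * a * (x⁻¹ * y)⁻¹) * (x⁻¹ * y) := by rw [h6]
    _ = x⁻¹ * y * a := by group

/-- (8g)(ii) -/
theorem quot_prop {T : Type} [Group T] (h2 : ∀ t : T, ∃ k : ℕ, t ^ 2 ^ k = 1)
    (hE : ∀ E : Subgroup T, (∀ x ∈ E, x * x = 1) → Finite E) (A : Subgroup T) (hN : A.Normal)
    (hab : Ab A) (E : Subgroup (T ⧸ A)) (hEE : ∀ x ∈ E, x * x = 1) : Finite E := by
  set M := E.comap (QuotientGroup.mk' A) with hMdef
  have hAf := inv_fin hE A hab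
  -- commutators and squares of `M` lie in `A`
  have hsq : ∀ x ∈ M, x * x ∈ A := by
    intro x hx
    have h1 : (QuotientGroup.mk' A) x * (QuotientGroup.mk' A) x = 1 := hEE _ hx
    rw [← map_mul] at h1
    exact (QuotientGroup.eq_one_iff _).1 h1
  have hcomm : ∀ x ∈ M, ∀ y ∈ M, x * y * x⁻¹ * y⁻¹ ∈ A := by
    intro x hx y hy
    have hx1 : (QuotientGroup.mk' A) x * (QuotientGroup.mk' A) x = 1 := hEE _ hx
    have hy1 : (QuotientGroup.mk' A) y * (QuotientGroup.mk' A) y = 1 := hEE _ hy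
    have hxy1 : (QuotientGroup.mk' A) (x * y) * (QuotientGroup.mk' A) (x * y) = 1 :=
      hEE _ (M.mul_mem hx hy)
    have h5 : (QuotientGroup.mk' A) (x * y * x⁻¹ * y⁻¹) = 1 := by
      have hxi : ((QuotientGroup.mk' A) x)⁻¹ = (QuotientGroup.mk' A) x :=
        inv_eq_of_mul_eq_one_left hx1
      have hyi : ((QuotientGroup.mk' A) y)⁻¹ = (QuotientGroup.mk' A) y :=
        inv_eq_of_mul_eq_one_left hy1
      rw [map_mul, map_mul, map_inv, map_inv, hxi, hyi, mul_assoc, ← map_mul]
      exact hxy1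
    exact (QuotientGroup.eq_one_iff _).1 h5
  have hAM : A ≤ M := by
    intro a ha
    have : (QuotientGroup.mk' A) a = 1 := (QuotientGroup.eq_one_iff _).2 ha
    show (QuotientGroup.mk' A) a ∈ E
    rw [this]; exact E.one_mem
  -- pass to `C = M ∩ C(A)`
  set C := M ⊓ Subgroup.centralizer (A : Set T) with hC
  have hCM : C.relIndex M ≠ 0 := by
    rw [hC, Subgroup.inf_relIndex_left]
    exact cent_index h2 A hN hab hAf M
  have hAC : A ≤ C := le_inf hAM fun a ha => Subgroup.mem_centralizer_iff.2 fun b hb => hab b hb a ha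
  have hCA : ∀ x ∈ C, ∀ a ∈ A, x * a = a * x := by
    intro x hx a ha
    exact (Subgroup.mem_centralizer_iff.1 hx.2 a ha).symm
  -- maximal abelian `B`
  obtain ⟨B, hAB, ⟨hBC, hBab⟩, hBmax⟩ := zorn_sub (fun B : Subgroup T => B ≤ C ∧ Ab B) A
    ⟨hAC, hab⟩ (by
      intro c hne hch hc
      refine ⟨sSup_le fun B hB => (hc B hB).1, ?_⟩
      intro x hx y hy
      obtain ⟨B, hB, hxB, hyB⟩ := chain_mem2 hne hch hx hy
      exact (hc B hB).2 x hxB y hyB)
  have hABi : A.relIndex B ≠ 0 := by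
    refine (F2_sub B hBab (fun a _ => h2 a) (inv_fin hE B hBab)).2 A ?_
    intro b hb
    exact hsq b (hBC hb).1
  have hBCi : B.relIndex C ≠ 0 := by
    -- representatives of `A` in `B`
    have h1 : (A.subgroupOf B).index ≠ 0 := hABi
    have hfin : Finite (B ⧸ A.subgroupOf B) := Subgroup.index_ne_zero_iff_finite.1 h1
    have hinvf : Finite {a : T | a ∈ A ∧ a * a = 1} := hAf.to_subtype
    let Q := B ⧸ A.subgroupOf B
    let f : T → (Q → T) := fun x q => x * (q.out : T) * x⁻¹ * (q.out : T)⁻¹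
    refine relIndex_ne_zero_of_fun B C f {g : Q → T | ∀ q, g q ∈ {a : T | a ∈ A ∧ a * a = 1}}
      (Set.Finite.pi' fun _ => hAf) ?_ ?_
    · intro x hx q
      have hq : (q.out : T) ∈ C := hBC q.out.2
      have hcA : x * (q.out : T) * x⁻¹ * (q.out : T)⁻¹ ∈ A := hcomm x hx.1 _ hq.1
      refine ⟨hcA, ?_⟩
      -- `[x,b]^2 = [x^2,b] = 1`
      set b := (q.out : T) with hb
      have hx2 : x * x * b = b * (x * x) := (hCA b hq _ (hsq x hx.1)).symm
      have hxc : x * (x * b * x⁻¹ * b⁻¹) = (x * b * x⁻¹ * b⁻¹) * x := hCA x hx _ hcA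
      have e1 : (x * b * x⁻¹ * b⁻¹) * (x * b * x⁻¹ * b⁻¹) =
          ((x * b * x⁻¹ * b⁻¹) * x) * (b * x⁻¹ * b⁻¹) := by group
      show (x * b * x⁻¹ * b⁻¹) * (x * b * x⁻¹ * b⁻¹) = 1
      rw [e1, ← hxc]
      have e2 : x * (x * b * x⁻¹ * b⁻¹) * (b * x⁻¹ * b⁻¹) = (x * x * b) * (x * x)⁻¹ * b⁻¹ := by
        group
      rw [e2, hx2]; group
    · intro x hx y hy hxy
      -- `x⁻¹ y` commutes with `B`
      have hcen : ∀ b ∈ B, (x⁻¹ * y) * b = b * (x⁻¹ * y) := by
        intro b hb
        let q : Q := QuotientGroup.mk ⟨b, hb⟩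
        have hq : (q.out : T)⁻¹ * b ∈ A := by
          have h2 : (QuotientGroup.mk q.out : Q) = QuotientGroup.mk ⟨b, hb⟩ :=
            QuotientGroup.out_eq' _
          rw [QuotientGroup.eq, Subgroup.mem_subgroupOf] at h2
          simpa using h2
        have h3 : x * (q.out : T) * x⁻¹ * (q.out : T)⁻¹ = y * (q.out : T) * y⁻¹ * (q.out : T)⁻¹ :=
          congrFun hxy q
        have h4 : x * (q.out : T) * x⁻¹ = y * (q.out : T) * y⁻¹ := mul_right_cancel h3
        have h5 : (x⁻¹ * y) * (q.out : T) = (q.out : T) * (x⁻¹ * y) := by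
          have : (x⁻¹ * y) * (q.out : T) = x⁻¹ * (y * (q.out : T) * y⁻¹) * y := by group
          rw [this, ← h4]; group
        have hxyC : x⁻¹ * y ∈ C := C.mul_mem (C.inv_mem hx) hy
        have h6 := hCA _ hxyC _ hq
        calc (x⁻¹ * y) * b = ((x⁻¹ * y) * (q.out : T)) * ((q.out : T)⁻¹ * b) := by group
          _ = (q.out : T) * ((x⁻¹ * y) * ((q.out : T)⁻¹ * b)) := by rw [h5]; group
          _ = (q.out : T) * (((q.out : T)⁻¹ * b) * (x⁻¹ * y)) := by rw [h6]
          _ = b * (x⁻¹ * y) := by group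
      -- adjoin it to `B`
      set w := x⁻¹ * y with hw
      have hwC : w ∈ C := C.mul_mem (C.inv_mem hx) hy
      let B' := B ⊔ Subgroup.zpowers w
      have hB'ab : Ab B' := by
        have hle : B' ≤ Subgroup.centralizer (B' : Set T) := by
          have h7 : (B : Set T) ⊆ Subgroup.centralizer (B' : Set T) := by
            intro b hb
            rw [SetLike.mem_coe, Subgroup.mem_centralizer_iff]
            intro u hu
            have hle2 : B' ≤ Subgroup.centralizer ({b} : Set T) := by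
              refine sup_le ?_ ?_
              · intro c hc
                rw [Subgroup.mem_centralizer_singleton_iff]
                exact hBab c hc b hb
              · rw [Subgroup.zpowers_le, Subgroup.mem_centralizer_singleton_iff]
                exact hcen b hb
            exact Subgroup.mem_centralizer_singleton_iff.1 (hle2 hu)
          have h8 : w ∈ Subgroup.centralizer (B' : Set T) := by
            rw [Subgroup.mem_centralizer_iff]
            intro u hu
            have hle2 : B' ≤ Subgroup.centralizer ({w} : Set T) := by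
              refine sup_le ?_ ?_
              · intro c hc
                rw [Subgroup.mem_centralizer_singleton_iff]
                exact (hcen c hc).symm
              · rw [Subgroup.zpowers_le, Subgroup.mem_centralizer_singleton_iff]
            exact Subgroup.mem_centralizer_singleton_iff.1 (hle2 hu)
          exact sup_le h7 ((Subgroup.zpowers_le).2 h8)
        intro a ha b hb
        exact (Subgroup.mem_centralizer_iff.1 (hle hb) a ha)
      have h9 := hBmax B' le_sup_left ⟨sup_le hBC ((Subgroup.zpowers_le).2 hwC), hB'ab⟩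
      exact h9 (Subgroup.mem_sup_right (Subgroup.mem_zpowers w))
  have hAMi : A.relIndex M ≠ 0 :=
    Subgroup.relIndex_ne_zero_trans (Subgroup.relIndex_ne_zero_trans hABi hBCi) hCM
  have hfin := finite_of_relIndex hAMi (QuotientGroup.mk' A) (fun x _ y _ hxy =>
    QuotientGroup.eq.2 hxy)
  have hsub : (E : Set (T ⧸ A)) ⊆ (QuotientGroup.mk' A) '' (M : Set T) := by
    intro e he
    obtain ⟨x, rfl⟩ := QuotientGroup.mk'_surjective A e
    exact ⟨x, he, rfl⟩
  exact (hfin.subset hsub).to_subtype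

end Pool.Agent.Helper83_Rae
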