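import Pool.Agent.Helper83_Rae.Ch2

set_option autoImplicit false

/-! (8g)(iii) and (8h). -/

namespace Pool.Agent.Helper83_Rae

open Pool.Agent.Helper867_Rae Pool.Agent.TH62.PL

theorem LF_quot {T : Type} [Group T] (h : LF T) (A : Subgroup T) [A.Normal] : LF (T ⧸ A) := by
  intro H hH
  obtain ⟨S, hS, hSf⟩ := (Subgroup.fg_iff _).1 hH
  let K := Subgroup.closure (Quotient.out '' S : Set T)
  have hK : Finite K := h K ((Subgroup.fg_iff _).2 ⟨_, rfl, hSf.image _⟩)
  have hle : H ≤ K.map (QuotientGroup.mk' A) := by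
    rw [← hS, Subgroup.closure_le]
    intro s hs
    refine ⟨s.out, Subgroup.subset_closure ⟨s, hs, rfl⟩, ?_⟩
    exact QuotientGroup.out_eq' s
  have hfin : ((QuotientGroup.mk' A) '' (K : Set T)).Finite := (Set.toFinite (K : Set T)).image _
  exact (hfin.subset (fun x hx => hle hx)).to_subtype

theorem max_normal_abelian {T : Type} [Group T] (hLF : LF T)
    (h2 : ∀ t : T, ∃ k : ℕ, t ^ 2 ^ k = 1)
    (hE : ∀ E : Subgroup T, (∀ x ∈ E, x * x = 1) → Finite E) :
    ∃ A : Subgroup T, A.Normal ∧ Ab A ∧ ∀ x : T, (∀ a ∈ A, a * x = x * a) → x ∈ A := by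
  obtain ⟨A, -, ⟨hN, hab⟩, hmax⟩ := zorn_sub (fun A : Subgroup T => A.Normal ∧ Ab A) ⊥
    ⟨inferInstance, by intro a ha b hb; rw [Subgroup.mem_bot.1 ha, Subgroup.mem_bot.1 hb]⟩
    (by
      intro c hne hch hc
      refine ⟨⟨fun x hx g => ?_⟩, ?_⟩
      · obtain ⟨B, hB, hxB⟩ := chain_mem hne hch hx
        exact (le_sSup hB : B ≤ sSup c) ((hc B hB).1.conj_mem x hxB g)
      · intro x hx y hy
        obtain ⟨B, hB, hxB, hyB⟩ := chain_mem2 hne hch hx hy
        exact (hc B hB).2 x hxB y hyB)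
  refine ⟨A, hN, hab, ?_⟩
  by_contra hcon
  push Not at hcon
  obtain ⟨x0, hx0, hx0A⟩ := hcon
  have := hN
  let C := Subgroup.centralizer (A : Set T)
  have hx0C : x0 ∈ C := Subgroup.mem_centralizer_iff.2 fun a ha => hx0 a ha
  have hCn : C.Normal := inferInstance
  have hne : C.map (QuotientGroup.mk' A) ≠ ⊥ := by
    intro h
    have h3 : (QuotientGroup.mk' A) x0 ∈ C.map (QuotientGroup.mk' A) := ⟨x0, hx0C, rfl⟩
    rw [h, Subgroup.mem_bot] at h3
    exact hx0A ((QuotientGroup.eq_one_iff _).1 h3)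
  obtain ⟨z, hzM, hz1, hzc⟩ := center_meet (LF_quot hLF A) (by
    intro t
    obtain ⟨t, rfl⟩ := QuotientGroup.mk'_surjective A t
    obtain ⟨k, hk⟩ := h2 t
    exact ⟨k, by rw [← map_pow, hk, map_one]⟩) (quot_prop h2 hE A hN hab)
    (C.map (QuotientGroup.mk' A)) (hCn.map _ (QuotientGroup.mk'_surjective A)) hne
  obtain ⟨x, hxC, rfl⟩ := hzM
  have hxA : x ∉ A := fun h => hz1 ((QuotientGroup.eq_one_iff _).2 h)
  have hxC' : ∀ a ∈ A, a * x = x * a := fun a ha => Subgroup.mem_centralizer_iff.1 hxC a ha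
  have hxt : ∀ t : T, t * x * t⁻¹ * x⁻¹ ∈ A := by
    intro t
    have h3 := hzc ((QuotientGroup.mk' A) t)
    refine (QuotientGroup.eq_one_iff _).1 ?_
    show (QuotientGroup.mk' A) (t * x * t⁻¹ * x⁻¹) = 1
    rw [map_mul, map_mul, map_mul, map_inv, map_inv, ← h3]
    group
  let B := A ⊔ Subgroup.zpowers x
  have hBab : Ab B := by
    have hle : B ≤ Subgroup.centralizer (B : Set T) := by
      have h7 : (A : Set T) ⊆ Subgroup.centralizer (B : Set T) := by
        intro b hb
        rw [SetLike.mem_coe, Subgroup.mem_centralizer_iff]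
        intro u hu
        have hle2 : B ≤ Subgroup.centralizer ({b} : Set T) := by
          refine sup_le ?_ ?_
          · intro c hc
            rw [Subgroup.mem_centralizer_singleton_iff]
            exact hab c hc b hb
          · rw [Subgroup.zpowers_le, Subgroup.mem_centralizer_singleton_iff]
            exact (hxC' b hb).symm
        exact Subgroup.mem_centralizer_singleton_iff.1 (hle2 hu)
      have h8 : x ∈ Subgroup.centralizer (B : Set T) := by
        rw [Subgroup.mem_centralizer_iff]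
        intro u hu
        have hle2 : B ≤ Subgroup.centralizer ({x} : Set T) := by
          refine sup_le ?_ ?_
          · intro c hc
            rw [Subgroup.mem_centralizer_singleton_iff]
            exact hxC' c hc
          · rw [Subgroup.zpowers_le, Subgroup.mem_centralizer_singleton_iff]
        exact Subgroup.mem_centralizer_singleton_iff.1 (hle2 hu)
      exact sup_le h7 ((Subgroup.zpowers_le).2 h8)
    intro a ha b hb
    exact (Subgroup.mem_centralizer_iff.1 (hle hb) a ha)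
  have hBn : B.Normal := by
    refine ⟨fun b hb g => ?_⟩
    have hle2 : B ≤ B.comap (MulAut.conj g).toMonoidHom := by
      refine sup_le ?_ ?_
      · intro a ha
        exact Subgroup.mem_sup_left (hN.conj_mem a ha g)
      · rw [Subgroup.zpowers_le]
        show g * x * g⁻¹ ∈ B
        have e : g * x * g⁻¹ = (g * x * g⁻¹ * x⁻¹) * x := by group
        rw [e]
        exact B.mul_mem (Subgroup.mem_sup_left (hxt g))
          (Subgroup.mem_sup_right (Subgroup.mem_zpowers x))
    exact hle2 hb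
  exact hxA (hmax B le_sup_left ⟨hBn, hBab⟩ (Subgroup.mem_sup_right (Subgroup.mem_zpowers x)))

theorem ch : S_ch := by
  intro T _ hLF hp hE
  have h2 : ∀ t : T, ∃ k : ℕ, t ^ 2 ^ k = 1 := by
    intro t
    obtain ⟨k, hk⟩ := hp ⟨t, trivial⟩
    exact ⟨k, congrArg Subtype.val hk⟩
  obtain ⟨A, hN, hab, hcen⟩ := max_normal_abelian hLF h2 hE
  have hAf := inv_fin hE A hab
  have hfi : A.FiniteIndex := by
    have h3 := cent_index h2 A hN hab hAf ⊤
    rw [Subgroup.relIndex_top_right] at h3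
    have hle : Subgroup.centralizer (A : Set T) ≤ A := by
      intro x hx
      exact hcen x fun a ha => Subgroup.mem_centralizer_iff.1 hx a ha
    have : (Subgroup.centralizer (A : Set T)).FiniteIndex := ⟨h3⟩
    exact Subgroup.finiteIndex_of_le hle
  refine ⟨⟨A, hN, hfi, hab⟩, ?_⟩
  intro H hH
  obtain ⟨n1, hn1⟩ := (F2_sub A hab (fun a _ => h2 a) hAf).1 (fun n => H n ⊓ A)
    (fun i j hij => inf_le_inf_right A (hH hij)) (fun n => inf_le_right)
  have := hN
  have hq : Finite (T ⧸ A) := Subgroup.finite_quotient_of_finiteIndex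
  obtain ⟨n2, hn2⟩ := stab (fun n => (QuotientGroup.mk' A) '' (H n : Set T))
    (fun n => Set.toFinite _) (fun i j hij => Set.image_mono (hH hij))
  refine ⟨max n1 n2, fun m hm => le_antisymm (hH hm) ?_⟩
  intro x hx
  have h4 : (QuotientGroup.mk' A) x ∈ (QuotientGroup.mk' A) '' (H m : Set T) := by
    rw [hn2 m (le_trans (le_max_right _ _) hm), ← hn2 (max n1 n2) (le_max_right _ _)]
    exact ⟨x, hx, rfl⟩
  obtain ⟨y, hy, hyx⟩ := h4
  have h5 : y⁻¹ * x ∈ A := QuotientGroup.eq.1 hyx
  have h6 : y⁻¹ * x ∈ H (max n1 n2) ⊓ A :=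
    ⟨(H _).mul_mem ((H _).inv_mem (hH hm hy)) hx, h5⟩
  have e1 : H m ⊓ A = H n1 ⊓ A := hn1 m (le_trans (le_max_left _ _) hm)
  have e2 : H (max n1 n2) ⊓ A = H n1 ⊓ A := hn1 _ (le_max_left _ _)
  rw [e2, ← e1] at h6
  have := (H m).mul_mem hy h6.1
  simpa using this

end Pool.Agent.Helper83_Rae
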