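import Pool.Agent.Helper867_Rae.Stmts2

set_option autoImplicit false

/-! (8f): abelian 2-groups with finitely many involutions. -/

namespace Pool.Agent.Helper83_Rae

open Pool.Agent.Helper867_Rae

/-- an antitone sequence of finite sets stabilises -/
theorem stab {α : Type} (S : ℕ → Set α) (h0 : ∀ n, (S n).Finite) (hS : Antitone S) :
    ∃ n, ∀ m, n ≤ m → S m = S n := by
  obtain ⟨n, hn⟩ : ∃ n, ∀ m, (S n).ncard ≤ (S m).ncard := by
    have hne : (Set.range fun n => (S n).ncard).Nonempty := ⟨_, 0, rfl⟩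
    obtain ⟨n, hn⟩ := WellFounded.min_mem (wellFounded_lt (α := ℕ)) _ hne
    refine ⟨n, fun m => ?_⟩
    have := WellFounded.min_le (wellFounded_lt (α := ℕ))
      (show (S m).ncard ∈ Set.range fun n => (S n).ncard from ⟨m, rfl⟩)
    simp only at hn
    rw [hn]
    exact this
  exact ⟨n, fun m hm => Set.eq_of_subset_of_ncard_le (hS hm) (hn m) (h0 n)⟩

section
variable {A : Type} [AddCommGroup A]

theorem two_fin (hf : Finite {a : A // 2 • a = 0}) : {a : A | 2 • a = 0}.Finite :=
  Set.finite_coe_iff.1 hf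

theorem tors_fin (hf : Finite {a : A // 2 • a = 0}) (k : ℕ) :
    {a : A | 2 ^ k • a = 0}.Finite := by
  have hf2 : {a : A | 2 • a = 0}.Finite := two_fin hf
  induction k with
  | zero =>
    refine (Set.finite_singleton (0 : A)).subset ?_
    intro a ha
    simpa using ha
  | succ k ih =>
    have e : {a : A | 2 ^ (k + 1) • a = 0} = (fun a : A => 2 • a) ⁻¹' {a : A | 2 ^ k • a = 0} := by
      ext a
      simp only [Set.mem_ofPred_eq, Set.mem_preimage, pow_succ, mul_smul]
    rw [e]
    refine ih.preimage' fun b _ => ?_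
    rcases Set.eq_empty_or_nonempty ((fun a : A => 2 • a) ⁻¹' {b}) with h | ⟨a0, ha0⟩
    · rw [h]; exact Set.finite_empty
    · refine (hf2.image fun t => a0 + t).subset ?_
      intro a ha
      refine ⟨a - a0, ?_, by simp⟩
      have h1 : 2 • a = b := ha
      have h2 : 2 • a0 = b := ha0
      show 2 • (a - a0) = 0
      rw [smul_sub, h1, h2, sub_self]

theorem divis (h2 : ∀ a : A, ∃ k : ℕ, 2 ^ k • a = 0) (hf : Finite {a : A // 2 • a = 0}) :
    ∃ n : ℕ, ∀ a : A, ∃ b : A, 2 ^ n • a = 2 ^ (n + 1) • b := by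
  obtain ⟨n, hn⟩ := stab (fun k => {a : A | 2 • a = 0 ∧ ∃ b : A, a = 2 ^ k • b})
    (fun k => (two_fin hf).subset fun a ha => ha.1)
    (by
      intro i j hij a ha
      obtain ⟨h1, b, hb⟩ := ha
      refine ⟨h1, 2 ^ (j - i) • b, ?_⟩
      rw [hb, ← mul_smul, ← pow_add, Nat.add_sub_cancel' hij])
  have key : ∀ k : ℕ, ∀ a : A, 2 ^ k • (2 ^ n • a) = 0 → ∃ b : A, 2 ^ n • a = 2 ^ (n + 1) • b := by
    intro k
    induction k with
    | zero => intro a ha; exact ⟨0, by simpa using ha⟩
    | succ k ih =>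
      intro a ha
      have hm : 2 ^ k • (2 ^ n • a) ∈ {a : A | 2 • a = 0 ∧ ∃ b : A, a = 2 ^ n • b} := by
        refine ⟨?_, 2 ^ k • a, ?_⟩
        · rw [← mul_smul, ← pow_succ']; exact ha
        · rw [← mul_smul, ← mul_smul, mul_comm]
      have e := hn (n + 1 + k) (by omega)
      rw [← e] at hm
      obtain ⟨_, c, hc⟩ := hm
      have h3 : 2 ^ k • (2 ^ n • (a - 2 • c)) = 0 := by
        have : 2 ^ k • (2 ^ n • (2 • c)) = 2 ^ (n + 1 + k) • c := by
          rw [← mul_smul, ← mul_smul]; congr 1; ring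
        rw [smul_sub, smul_sub, this, hc, sub_self]
      obtain ⟨b, hb⟩ := ih _ h3
      refine ⟨b + c, ?_⟩
      have h4 : 2 ^ n • (2 • c) = 2 ^ (n + 1) • c := by
        rw [← mul_smul]; congr 1
      rw [smul_sub, h4, sub_eq_iff_eq_add] at hb
      rw [hb, smul_add]
  refine ⟨n, fun a => ?_⟩
  obtain ⟨k, hk⟩ := h2 a
  refine key k a ?_
  rw [← mul_smul, mul_comm, mul_smul, hk, smul_zero]

theorem divis_iter {n : ℕ} (h : ∀ a : A, ∃ b : A, 2 ^ n • a = 2 ^ (n + 1) • b) (j : ℕ) :
    ∀ a : A, ∃ b : A, 2 ^ n • a = 2 ^ (n + j) • b := by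
  induction j with
  | zero => intro a; exact ⟨a, rfl⟩
  | succ j ih =>
    intro a
    obtain ⟨b, hb⟩ := ih a
    obtain ⟨c, hc⟩ := h b
    refine ⟨c, ?_⟩
    rw [hb, pow_add, mul_comm, mul_smul, hc, ← mul_smul]
    congr 1
    ring

/-- decomposition `A = 2^n A + A[2^n]` -/
theorem decomp {n : ℕ} (h : ∀ a : A, ∃ b : A, 2 ^ n • a = 2 ^ (n + 1) • b) (a : A) :
    ∃ b t : A, a = 2 ^ n • b + t ∧ 2 ^ n • t = 0 := by
  obtain ⟨b, hb⟩ := divis_iter h n a
  refine ⟨b, a - 2 ^ n • b, by abel, ?_⟩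
  rw [smul_sub, hb, ← mul_smul, ← pow_add, sub_self]

theorem aut_core {n : ℕ} (h : ∀ a : A, ∃ b : A, 2 ^ n • a = 2 ^ (n + 1) • b)
    (h2 : ∀ a : A, ∃ k : ℕ, 2 ^ k • a = 0)
    (g : A ≃+ A) (m : ℕ) (hm : ¬ 4 ∣ m) (hg : ∀ a, (g^[m]) a = a)
    (hfix : ∀ a, 2 ^ (n + 2) • a = 0 → g a = a) : ∀ a, g a = a := by
  have key : ∀ k : ℕ, ∀ a : A, 2 ^ k • (2 ^ n • a) = 0 → g (2 ^ n • a) = 2 ^ n • a := by
    intro k
    induction k with
    | zero =>
      intro a ha
      refine hfix _ ?_
      have h0 : 2 ^ n • a = 0 := by simpa using ha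
      rw [h0, smul_zero]
    | succ k ih =>
      intro a ha
      obtain ⟨b, hb⟩ := h a
      have hx : 2 ^ n • a = 2 • (2 ^ n • b) := by
        rw [hb, pow_succ', mul_smul]
      set x' := 2 ^ n • b with hx'
      set x := 2 ^ n • a with hxd
      -- `y = g x - x` is killed by 2
      have hy2 : 2 • (g x - x) = 0 := by
        have h5 : g (2 ^ n • (2 • a)) = 2 ^ n • (2 • a) := by
          refine ih (2 • a) ?_
          have : 2 ^ k • (2 ^ n • (2 • a)) = 2 ^ (k + 1) • (2 ^ n • a) := by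
            rw [← mul_smul, ← mul_smul, ← mul_smul]; congr 1; ring
          rw [this]; exact ha
        have h6 : 2 ^ n • (2 • a) = 2 • x := by
          rw [hxd, ← mul_smul, ← mul_smul, mul_comm]
        rw [h6, map_nsmul] at h5
        rw [smul_sub, h5, sub_self]
      set y' := g x' - x' with hy'
      have hyy : 2 • y' = g x - x := by
        rw [hy', smul_sub, ← map_nsmul, ← hx]
      have h4y : 4 • y' = 0 := by
        have : (4 : ℕ) • y' = 2 • (2 • y') := by rw [← mul_smul]; norm_num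
        rw [this, hyy, hy2]
      have hgy : g y' = y' := by
        refine hfix _ ?_
        have : 2 ^ (n + 2) • y' = 2 ^ n • (4 • y') := by
          rw [← mul_smul]; congr 1; ring
        rw [this, h4y, smul_zero]
      have hiter : ∀ j : ℕ, (g^[j]) x' = x' + j • y' := by
        intro j
        induction j with
        | zero => simp
        | succ j ihj =>
          have e1 : g x' = x' + y' := by rw [hy']; abel
          have e2 : g (j • y') = j • y' := by rw [map_nsmul, hgy]
          rw [Function.iterate_succ_apply', ihj, map_add, e1, e2, succ_nsmul]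
          abel
      have hmy : m • y' = 0 := by
        have := hiter m
        rw [hg x'] at this
        simpa using this
      have h2y : 2 • y' = 0 := by
        have hd : addOrderOf y' ∣ Nat.gcd m 4 :=
          Nat.dvd_gcd (addOrderOf_dvd_of_nsmul_eq_zero hmy) (addOrderOf_dvd_of_nsmul_eq_zero h4y)
        have hg4 : Nat.gcd m 4 ∣ 2 := by
          have h7 : Nat.gcd m 4 ∣ 4 := Nat.gcd_dvd_right _ _
          have h8 : Nat.gcd m 4 ≤ 4 := Nat.le_of_dvd (by norm_num) h7
          have h9 : Nat.gcd m 4 ≠ 4 := fun h10 => hm (h10 ▸ Nat.gcd_dvd_left m 4)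
          interval_cases hh : Nat.gcd m 4
          · simp at h7
          · norm_num
          · norm_num
          · norm_num at h7
          · exact absurd rfl h9
        exact addOrderOf_dvd_iff_nsmul_eq_zero.1 (hd.trans hg4)
      rw [hyy] at h2y
      exact sub_eq_zero.1 h2y
  intro a
  obtain ⟨b, t, hab, ht⟩ := decomp h a
  obtain ⟨k, hk⟩ := h2 b
  have h1 : g (2 ^ n • b) = 2 ^ n • b := by
    refine key k b ?_
    rw [← mul_smul, mul_comm, mul_smul, hk, smul_zero]
  have h3 : g t = t := by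
    refine hfix t ?_
    rw [pow_add, mul_comm, mul_smul, ht, smul_zero]
  rw [hab, map_add, h1, h3]

theorem aut_all {n : ℕ} (h : ∀ a : A, ∃ b : A, 2 ^ n • a = 2 ^ (n + 1) • b)
    (h2 : ∀ a : A, ∃ k : ℕ, 2 ^ k • a = 0) (m : ℕ) :
    ∀ (g : A ≃+ A), 0 < m → (∀ a, (g^[m]) a = a) →
    (∀ a, 2 ^ (n + 2) • a = 0 → g a = a) → ∀ a, g a = a := by
  induction m using Nat.strong_induction_on with
  | _ m ih =>
    intro g hm hg hfix
    by_cases h4 : 4 ∣ m
    · obtain ⟨r, hr⟩ := h4
      have hgg : ∀ a, (g.trans g) a = a := by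
        refine ih (2 * r) (by omega) (g.trans g) (by omega) ?_ ?_
        · intro a
          have e : ⇑(g.trans g) = (g^[2]) := by
            ext x; rfl
          rw [e, ← Function.iterate_mul]
          have : 2 * (2 * r) = m := by omega
          rw [this]; exact hg a
        · intro a ha
          show g (g a) = a
          rw [hfix a ha, hfix a ha]
      refine ih 2 (by omega) g (by omega) ?_ hfix
      intro a
      exact hgg a
    · exact aut_core h h2 g m h4 hg hfix

end

theorem F1 : S_F1 := by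
  intro A _ h2 hf
  obtain ⟨n, hn⟩ := divis h2 hf
  refine ⟨n + 2, (tors_fin hf (n + 2)).to_subtype, ?_⟩
  rintro g ⟨m, hm, hg⟩ hfix
  exact aut_all hn h2 m g hm hg hfix

theorem F2 : S_F2 := by
  intro A _ h2 hf
  refine ⟨?_, ?_⟩
  · intro H hH
    classical
    have hfin : {a : A | 2 • a = 0}.Finite := two_fin hf
    -- for each involution a the set of k with a ∈ 2^k H_i stabilises in i
    have hone : ∀ a : A, ∃ i0 : ℕ, ∀ i, i0 ≤ i → ∀ k : ℕ,
        (∃ b ∈ H i0, a = 2 ^ k • b) → ∃ b ∈ H i, a = 2 ^ k • b := by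
      intro a
      by_cases hc : ∀ i k : ℕ, ∃ b ∈ H i, a = 2 ^ k • b
      · exact ⟨0, fun i _ k _ => hc i k⟩
      · push Not at hc
        obtain ⟨i1, k1, hik⟩ := hc
        obtain ⟨i2, hi2⟩ := stab (fun i => {k : ℕ | k < k1 ∧ ∃ b ∈ H i, a = 2 ^ k • b})
          (fun i => (Set.finite_lt_nat k1).subset fun k hk => hk.1)
          (by
            intro i j hij k hk
            obtain ⟨h1, b, hb, hab⟩ := hk
            exact ⟨h1, b, hH hij hb, hab⟩)
        refine ⟨max i1 i2, fun i hi k hk => ?_⟩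
        have hk1 : k < k1 := by
          by_contra hcon
          push Not at hcon
          obtain ⟨b, hb, hab⟩ := hk
          refine hik (2 ^ (k - k1) • b) ?_ ?_
          · exact (H i1).nsmul_mem (hH (le_max_left i1 i2) hb) _
          · rw [hab, ← mul_smul, ← pow_add, Nat.add_sub_cancel' hcon]
        have e1 := hi2 (max i1 i2) (le_max_right _ _)
        have e2 := hi2 i (le_trans (le_max_right _ _) hi)
        have hmem : k ∈ {k : ℕ | k < k1 ∧ ∃ b ∈ H (max i1 i2), a = 2 ^ k • b} := ⟨hk1, hk⟩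
        rw [e1, ← e2] at hmem
        exact hmem.2
    choose i0 hi0 using hone
    obtain ⟨n, hn⟩ : ∃ n, ∀ a ∈ {a : A | 2 • a = 0}, i0 a ≤ n := by
      obtain ⟨n, hn⟩ := (hfin.image i0).bddAbove
      exact ⟨n, fun a ha => hn ⟨a, ha, rfl⟩⟩
    refine ⟨n, fun m hm => le_antisymm (hH hm) ?_⟩
    have key : ∀ k : ℕ, ∀ x ∈ H n, 2 ^ k • x = 0 → x ∈ H m := by
      intro k
      induction k with
      | zero =>
        intro x _ hx
        have : x = 0 := by simpa using hx
        rw [this]; exact (H m).zero_mem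
      | succ k ih =>
        intro x hx hkx
        have h2x : 2 • (2 ^ k • x) = 0 := by rw [← mul_smul, ← pow_succ']; exact hkx
        have hi := hn (2 ^ k • x) h2x
        obtain ⟨b, hb, hxb⟩ := hi0 (2 ^ k • x) m (le_trans hi hm) k ⟨x, hH hi hx, rfl⟩
        have h3 : x - b ∈ H m := by
          refine ih (x - b) ((H n).sub_mem hx (hH hm hb)) ?_
          rw [smul_sub, hxb, sub_self]
        have := (H m).add_mem h3 hb
        simpa using this
    intro x hx
    obtain ⟨k, hk⟩ := h2 x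
    exact key k x hx hk
  · obtain ⟨n, hn⟩ := divis h2 hf
    refine ⟨n, hn, ?_⟩
    have hfin := tors_fin hf n
    have : Finite {a : A | 2 ^ n • a = 0} := hfin.to_subtype
    refine Finite.of_surjective
      (fun t : {a : A | 2 ^ n • a = 0} =>
        (QuotientAddGroup.mk (t : A) : A ⧸ (AddMonoidHom.range (nsmulAddMonoidHom (α := A) (2 ^ n))))) ?_
    intro q
    obtain ⟨a, rfl⟩ := QuotientAddGroup.mk_surjective q
    obtain ⟨b, t, hab, ht⟩ := decomp hn a
    refine ⟨⟨t, ht⟩, ?_⟩
    rw [QuotientAddGroup.eq]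
    refine ⟨b, ?_⟩
    show 2 ^ n • b = -t + a
    rw [hab]; abel

end Pool.Agent.Helper83_Rae
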