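import Pool.Agent.Helper83_Rae.Ch3

set_option autoImplicit false

/-! (8h). -/

namespace Pool.Agent.Helper83_Rae

open Pool.Agent.Helper867_Rae Pool.Agent.TH62.PL

theorem LF_sub {T : Type} [Group T] (h : LF T) (D : Subgroup T) : LF D := by
  intro H hH
  have h1 : (H.map D.subtype).FG := by
    obtain ⟨S, hS, hSf⟩ := (Subgroup.fg_iff _).1 hH
    refine (Subgroup.fg_iff _).2 ⟨D.subtype '' S, ?_, hSf.image _⟩
    rw [← MonoidHom.map_closure, hS]
  have h2 : Finite (H.map D.subtype) := h _ h1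
  exact Finite.of_injective (fun x : H => (⟨(x : D), ⟨x, x.2, rfl⟩⟩ : H.map D.subtype))
    (fun a b hab => Subtype.ext (Subtype.ext
      (congrArg (fun z : H.map D.subtype => (z : T)) hab)))

theorem exists_min {T : Type} [Group T]
    (hD : ∀ H : ℕ → Subgroup T, Antitone H → ∃ n, ∀ m ≥ n, H m = H n) :
    ∃ D0 : Subgroup T, D0.FiniteIndex ∧ ∀ H : Subgroup T, H.FiniteIndex → D0 ≤ H := by
  by_contra hcon
  push Not at hcon
  have hstep : ∀ D0 : {D : Subgroup T // D.FiniteIndex}, ∃ D1 : {D : Subgroup T // D.FiniteIndex},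
      D1.1 < D0.1 := by
    rintro ⟨D0, hD0⟩
    obtain ⟨H, hH, hle⟩ := hcon D0 hD0
    have := hD0
    have := hH
    refine ⟨⟨D0 ⊓ H, inferInstance⟩, lt_of_le_of_ne inf_le_left ?_⟩
    intro h
    exact hle (inf_eq_left.1 h)
  choose F hF using hstep
  let s : ℕ → {D : Subgroup T // D.FiniteIndex} := fun n => F^[n] ⟨⊤, inferInstance⟩
  have hs : ∀ n, (s (n + 1)).1 < (s n).1 := by
    intro n
    have : s (n + 1) = F (s n) := Function.iterate_succ_apply' F n _
    rw [this]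
    exact hF _
  obtain ⟨n, hn⟩ := hD (fun n => (s n).1) (antitone_nat_of_succ_le fun n => (hs n).le)
  have := hn (n + 1) (by omega)
  exact (hs n).ne this

theorem fin : S_fin := by
  intro Y _ hLF D hN hp hmax hcen hE
  have hNi := hN
  have h2D : ∀ d ∈ D, ∃ k : ℕ, d ^ 2 ^ k = 1 := by
    intro d hd
    obtain ⟨k, hk⟩ := hp ⟨d, hd⟩
    exact ⟨k, congrArg Subtype.val hk⟩
  have hper : ∀ y : Y, ∃ m, 0 < m ∧ y ^ m = 1 := by
    intro y
    have h1 : Finite (Subgroup.zpowers y) := hLF _ ⟨{y}, by simp [Subgroup.zpowers_eq_closure]⟩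
    have h2 : IsOfFinOrder y := by
      rw [← finite_zpowers]; exact Set.toFinite _
    exact isOfFinOrder_iff_pow_eq_one.1 h2
  -- (8g) for `D`
  obtain ⟨⟨A, hAn, hAf, hAab⟩, hdcc⟩ := ch D (LF_sub hLF D) (by
      rintro ⟨d, -⟩
      obtain ⟨k, hk⟩ := hp d
      exact ⟨k, Subtype.ext hk⟩) (by
      intro E hEE
      have h1 : Finite (E.map D.subtype) := by
        refine hE _ (by rintro _ ⟨x, _, rfl⟩; exact x.2) ?_
        rintro _ ⟨x, hx, rfl⟩
        exact congrArg Subtype.val (hEE x hx)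
      exact Finite.of_injective (fun x : E => (⟨(x : D), ⟨x, x.2, rfl⟩⟩ : E.map D.subtype))
        (fun a b hab => Subtype.ext (Subtype.ext
          (congrArg (fun z : E.map D.subtype => (z : Y)) hab))))
  obtain ⟨D0, hD0f, hD0min⟩ := exists_min hdcc
  have hD0A : D0 ≤ A := hD0min A hAf
  -- `D0` is invariant under `Y`
  have hinv : ∀ (y : Y) (d : D) (_ : d ∈ D0), (⟨y * d * y⁻¹, hN.conj_mem _ d.2 y⟩ : D) ∈ D0 := by
    intro y d hd
    have h1 : (D0.comap (MulAut.conjNormal y : MulAut D).toMonoidHom).FiniteIndex := by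
      refine ⟨?_⟩
      rw [Subgroup.index_comap_of_surjective (f := (MulAut.conjNormal y : MulAut D).toMonoidHom) D0
        (MulAut.conjNormal y : MulAut D).surjective]
      exact hD0f.index_ne_zero
    have h2 := hD0min _ h1 hd
    have h3 : (MulAut.conjNormal y : MulAut D) d ∈ D0 := h2
    have h4 : (MulAut.conjNormal y : MulAut D) d = ⟨y * d * y⁻¹, hN.conj_mem _ d.2 y⟩ :=
      Subtype.ext (by simp [MulAut.conjNormal_apply])
    rwa [h4] at h3
  let Z : Subgroup Y := D0.map D.subtype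
  have hZD : Z ≤ D := by rintro _ ⟨x, _, rfl⟩; exact x.2
  have hZn : Z.Normal := by
    refine ⟨?_⟩
    rintro _ ⟨x, hx, rfl⟩ y
    exact ⟨_, hinv y x hx, rfl⟩
  have hZab : Ab Z := by
    rintro _ ⟨x, hx, rfl⟩ _ ⟨y, hy, rfl⟩
    exact congrArg Subtype.val (hAab x (hD0A hx) y (hD0A hy))
  have hZf : {a : Y | a ∈ Z ∧ a * a = 1}.Finite := by
    let E : Subgroup Y :=
      { carrier := {a : Y | a ∈ Z ∧ a * a = 1}
        one_mem' := ⟨Z.one_mem, by simp⟩
        mul_mem' := by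
          rintro x y ⟨hx, hx2⟩ ⟨hy, hy2⟩
          refine ⟨Z.mul_mem hx hy, ?_⟩
          have : x * y * (x * y) = (x * x) * (y * y) := by
            rw [mul_assoc x y, ← mul_assoc y x, hZab y hy x hx]
            simp [mul_assoc]
          rw [this, hx2, hy2, one_mul]
        inv_mem' := by
          rintro x ⟨hx, hx2⟩
          refine ⟨Z.inv_mem hx, ?_⟩
          rw [← mul_inv_rev, hx2, inv_one] }
    have : Finite E := hE E (fun x hx => hZD hx.1) fun x hx => hx.2
    exact Set.toFinite (E : Set Y)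
  -- the centraliser of `Z` has finite index
  have hc1 : (Subgroup.centralizer (Z : Set Y)).FiniteIndex := by
    obtain ⟨N, hNf, hN'⟩ := F1_sub Z hZab (fun a ha => h2D a (hZD ha)) hZf
    have : Finite {a : Y | a ∈ Z ∧ a ^ 2 ^ N = 1} := hNf.to_subtype
    let S := {a : Y | a ∈ Z ∧ a ^ 2 ^ N = 1}
    let f : Y → (S → S) := fun x a => ⟨x * a * x⁻¹, hZn.conj_mem _ a.2.1 x, by
      rw [conj_pow, a.2.2, mul_one, mul_inv_cancel]⟩
    have h3 := relIndex_ne_zero_of_fun (Subgroup.centralizer (Z : Set Y)) ⊤ f Set.univ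
      Set.finite_univ (fun _ _ => Set.mem_univ _) (by
      intro x _ y _ hxy
      rw [Subgroup.mem_centralizer_iff]
      have h3 := hN' (x⁻¹ * y) (fun a ha => hZn.conj_mem a ha _)
        (fun a ha => by have := hZn.conj_mem a ha (x⁻¹ * y)⁻¹; rwa [inv_inv] at this)
        (hper _) (by
          intro a ha ha'
          have h4 : x * a * x⁻¹ = y * a * y⁻¹ :=
            congrArg Subtype.val (congrFun hxy (⟨a, ha, ha'⟩ : S))
          have h5 : x⁻¹ * y * a * (x⁻¹ * y)⁻¹ = x⁻¹ * (y * a * y⁻¹) * x := by group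
          rw [h5, ← h4]; group)
      intro a ha
      have h6 := h3 a ha
      calc a * (x⁻¹ * y) = (x⁻¹ * y * a * (x⁻¹ * y)⁻¹) * (x⁻¹ * y) := by rw [h6]
        _ = x⁻¹ * y * a := by group)
    rw [Subgroup.relIndex_top_right] at h3
    exact ⟨h3⟩
  -- the centraliser of `D / Z` has finite index
  let K2 : Subgroup Y :=
    (Subgroup.centralizer ((D.map (QuotientGroup.mk' Z) : Subgroup (Y ⧸ Z)) : Set (Y ⧸ Z))).comap
      (QuotientGroup.mk' Z)
  have hDn : (D.map (QuotientGroup.mk' Z)).Normal := hN.map _ (QuotientGroup.mk'_surjective Z)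
  have hK2n : K2.Normal := inferInstance
  have hK2 : ∀ y : Y, y ∈ K2 ↔ ∀ d ∈ D, y * d * y⁻¹ * d⁻¹ ∈ Z := by
    intro y
    constructor
    · intro hy d hd
      have h3 : (QuotientGroup.mk' Z) d * (QuotientGroup.mk' Z) y =
          (QuotientGroup.mk' Z) y * (QuotientGroup.mk' Z) d :=
        Subgroup.mem_centralizer_iff.1 hy _ ⟨d, hd, rfl⟩
      refine (QuotientGroup.eq_one_iff _).1 ?_
      show (QuotientGroup.mk' Z) (y * d * y⁻¹ * d⁻¹) = 1
      rw [map_mul, map_mul, map_mul, map_inv, map_inv, ← h3]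
      group
    · intro h
      show (QuotientGroup.mk' Z) y ∈ Subgroup.centralizer _
      rw [Subgroup.mem_centralizer_iff]
      rintro _ ⟨d, hd, rfl⟩
      have h3 : (QuotientGroup.mk' Z) (y * d * y⁻¹ * d⁻¹) = 1 :=
        (QuotientGroup.eq_one_iff _).2 (h d hd)
      rw [map_mul, map_mul, map_mul, map_inv, map_inv] at h3
      have h4 := mul_inv_eq_one.1 h3
      have h5 := mul_inv_eq_iff_eq_mul.1 h4
      exact h5.symm
  have hc2 : K2.FiniteIndex := by
    have hfin : Finite (D ⧸ D0) := Subgroup.finite_quotient_of_finiteIndex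
    let f : Y → (D ⧸ D0 → D ⧸ D0) := fun x q =>
      QuotientGroup.mk (⟨x * (q.out : D) * x⁻¹, hN.conj_mem _ q.out.2 x⟩ : D)
    have h3 := relIndex_ne_zero_of_fun K2 ⊤ f Set.univ
      Set.finite_univ (fun _ _ => Set.mem_univ _) (by
      intro x _ y _ hxy
      rw [hK2]
      intro d hd
      let q : D ⧸ D0 := QuotientGroup.mk ⟨d, hd⟩
      have hq : (q.out : Y)⁻¹ * d ∈ Z := by
        have h2 : (QuotientGroup.mk q.out : D ⧸ D0) = QuotientGroup.mk ⟨d, hd⟩ :=
          QuotientGroup.out_eq' _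
        rw [QuotientGroup.eq] at h2
        exact ⟨_, h2, by simp⟩
      have h5 : (x * (q.out : Y) * x⁻¹)⁻¹ * (y * (q.out : Y) * y⁻¹) ∈ Z := by
        have h6 := congrFun hxy q
        have h7 := QuotientGroup.eq.1 h6
        exact ⟨_, h7, by simp⟩
      set r := (q.out : Y) with hr
      have h8 : x⁻¹ * ((x * r * x⁻¹)⁻¹ * (y * r * y⁻¹)) * (x⁻¹)⁻¹ ∈ Z := hZn.conj_mem _ h5 x⁻¹
      -- `w = x⁻¹ y`: `r⁻¹ w r w⁻¹ ∈ Z`
      have h9 : r⁻¹ * ((x⁻¹ * y) * r * (x⁻¹ * y)⁻¹) ∈ Z := by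
        have e : r⁻¹ * ((x⁻¹ * y) * r * (x⁻¹ * y)⁻¹) =
            x⁻¹ * ((x * r * x⁻¹)⁻¹ * (y * r * y⁻¹)) * (x⁻¹)⁻¹ := by group
        rw [e]; exact h8
      set w := x⁻¹ * y with hw
      -- `d = r z`
      have e : w * d * w⁻¹ * d⁻¹ =
          r * ((r⁻¹ * (w * r * w⁻¹)) * (w * (r⁻¹ * d) * w⁻¹) * (r⁻¹ * d)⁻¹) * r⁻¹ := by group
      rw [e]
      exact hZn.conj_mem _ (Z.mul_mem (Z.mul_mem h9 (hZn.conj_mem _ hq w)) (Z.inv_mem hq)) r)
    rw [Subgroup.relIndex_top_right] at h3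
    exact ⟨h3⟩
  let Y1 := Subgroup.centralizer (Z : Set Y) ⊓ K2
  have hY1f : Y1.FiniteIndex := inferInstance
  have hY1n : Y1.Normal := inferInstance
  have hY1p : IsPGroup 2 Y1 := by
    rintro ⟨y, hy⟩
    obtain ⟨m, hm0, hm1⟩ := hper y
    obtain ⟨k, m', hm'o, hkm⟩ := Nat.exists_eq_two_pow_mul_odd hm0.ne'
    refine ⟨k, Subtype.ext ?_⟩
    show y ^ 2 ^ k = 1
    set u := y ^ 2 ^ k with hu
    have hum : u ^ m' = 1 := by rw [hu, ← pow_mul, ← hkm, hm1]
    have huY : u ∈ Y1 := Y1.pow_mem hy _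
    have huZ : ∀ a ∈ Z, a * u = u * a := fun a ha => Subgroup.mem_centralizer_iff.1 huY.1 a ha
    have hodd2 : ∀ c : Y, (∃ j : ℕ, c ^ 2 ^ j = 1) → c ^ m' = 1 → c = 1 := by
      rintro c ⟨j, hj⟩ hc
      have h1 : orderOf c ∣ 2 ^ j := orderOf_dvd_of_pow_eq_one hj
      have h3 : orderOf c ∣ m' := orderOf_dvd_of_pow_eq_one hc
      have hcop : Nat.Coprime (2 ^ j) m' := Nat.Coprime.pow_left _ (Nat.coprime_two_left.2 hm'o)
      have h4 : orderOf c = 1 := Nat.eq_one_of_dvd_coprimes hcop h1 h3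
      exact orderOf_eq_one_iff.1 h4
    have huD : u ∈ D := by
      refine hcen u fun d hd => ?_
      set c := u * d * u⁻¹ * d⁻¹ with hc
      have hcZ : c ∈ Z := (hK2 u).1 huY.2 d hd
      have hpow : ∀ j : ℕ, u ^ j * d * (u ^ j)⁻¹ = c ^ j * d := by
        intro j
        induction j with
        | zero => simp
        | succ j ih =>
          have h3 : c ^ j * u = u * c ^ j := huZ _ (Z.pow_mem hcZ j)
          calc u ^ (j + 1) * d * (u ^ (j + 1))⁻¹ = u * (u ^ j * d * (u ^ j)⁻¹) * u⁻¹ := by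
                rw [pow_succ']; group
            _ = (u * c ^ j) * d * u⁻¹ := by rw [ih]; group
            _ = c ^ j * (u * d * u⁻¹ * d⁻¹) * d := by rw [← h3]; group
            _ = c ^ (j + 1) * d := by rw [← hc, pow_succ]
      have h4 := hpow m'
      rw [hum] at h4
      have h5 : c ^ m' = 1 := by
        have : c ^ m' * d = 1 * d := by rw [← h4]; simp
        exact mul_right_cancel this
      have h6 : c = 1 := hodd2 c (h2D c (hZD hcZ)) h5
      have h7 : u * d * u⁻¹ * d⁻¹ = 1 := by rw [← hc]; exact h6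
      have h8 := mul_inv_eq_one.1 h7
      exact mul_inv_eq_iff_eq_mul.1 h8
    exact hodd2 u (h2D u huD) hum
  exact Subgroup.finiteIndex_of_le (hmax Y1 hY1n hY1p)

end Pool.Agent.Helper83_Rae
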